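import Pool.Agent.Run7.h376.QL.Main

/-!
# L-convex quasi-Banach lattices are homeomorphic to Banach spaces

Problem `MP_a88ac2_gt`, question Q1 (complete metric linear spaces and Hilbert spaces). This theorem was first
handed in for `MP_c51823_gt` (quasi-Banach spaces).

The definitions are in `Pool/Agent/Run7/h376/QL/Main.lean` and `Lat.lean`:

* `QuasiNormed X q`: `q` is a quasi-norm on the real vector space `X`, and the sets
  `{y | q (y - x) < ε}` form a base of neighbourhoods of `x`; `IsCompleteQN q`: each Cauchy sequence
  converges. (Such a space is a complete metric linear space.)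
* `Lat E N p`: `E` is a linear space of measurable real functions on the measurable space `S`, and `N`
  is a homogeneous function on `E` with values in `[0, ∞)` such that `E` is solid (a measurable `g` with
  `|g| ≤ |f|`, `f ∈ E`, is in `E`, and `N g ≤ N f`) and `p`-convex:
  `N ((|f|^p + |g|^p)^(1/p))^p ≤ N(f)^p + N(g)^p`.

The theorem: a complete quasi-normed real space `X` which is isomorphic to `E` modulo the functions with
`N f = 0` (there is a linear surjection `J : E → X` with `a N(f) ≤ q (J f) ≤ b N(f)`) for such a lattice
with `0 < p ≤ 1` is homeomorphic to a real Banach space `Y`, and `Y` is separable if `X` is. By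
the known theorems on locally convex spaces `X` is homeomorphic to a Hilbert space.

Proof: the homeomorphism is `f ↦ sgn(f) |f|^p`, to the convexification, the space of the `v` with
`|v|^(1/p) ∈ E` and the norm `N (|v|^(1/p))^p`.
-/

set_option autoImplicit false

open TopologicalSpace

namespace Pool.Agent.Results.MP_a88ac2_gt.LConvexLattices

open Run7.h376.QL

universe u v

/-- **A complete quasi-normed space which is isomorphic to a `p`-convex lattice of functions,
`0 < p ≤ 1`, is homeomorphic to a Banach space, separable if `X` is.** -/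
theorem result {S : Type u} [MeasurableSpace S] (E : Submodule ℝ (S → ℝ)) (N : (S → ℝ) → ℝ) (p : ℝ)
    (hE : Lat E N p) (hp : p ≤ 1) {X : Type v} [AddCommGroup X] [Module ℝ X] [TopologicalSpace X]
    (q : X → ℝ) (hX : QuasiNormed X q) (hc : IsCompleteQN q) (J : E →ₗ[ℝ] X)
    (hJ : Function.Surjective J) (a b : ℝ) (ha : 0 < a)
    (hlow : ∀ f : E, a * N f.1 ≤ q (J f)) (hup : ∀ f : E, q (J f) ≤ b * N f.1) :
    ∃ (Y : Type u) (_ : NormedAddCommGroup Y) (_ : NormedSpace ℝ Y), CompleteSpace Y ∧
      Nonempty (X ≃ₜ Y) ∧ (SeparableSpace X → SeparableSpace Y) := by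
  obtain ⟨Y, h1, h2, h3, ⟨e⟩⟩ := main2 hE hp J hX hc hJ a b ha hlow hup
  refine ⟨Y, h1, h2, h3, ⟨e⟩, fun hs => ?_⟩
  exact e.surjective.denseRange.separableSpace e.continuous

end Pool.Agent.Results.MP_a88ac2_gt.LConvexLattices
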